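import Mathlib

set_option autoImplicit false

namespace Pool.Agent.Results.MP_5e6778_nt.NotSylv

open Finset

def Rep (r : ℕ) (A : Finset ℕ) : Prop := 0 ∉ A ∧ ∑ x ∈ A, (1 : ℚ) / x = 1 ∧
  ∃ a b : Fin r → ℕ, (∀ i, a i ≤ b i) ∧ A = univ.biUnion fun i => Icc (a i) (b i)

def syl : ℕ → ℕ
  | 0 => 2
  | n + 1 => syl n ^ 2 - syl n + 1

lemma tail (k : ℕ) : ∀ c D m : ℕ, 1 ≤ c → c ≤ k + 1 → c * m ≤ D → 2 ≤ m →
    ∃ x : Fin (k + 1) → ℕ, StrictMono x ∧ m ≤ x 0 ∧ ∑ i, (1 : ℚ) / x i = c / D ∧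
      m ^ 2 ^ k ≤ x (Fin.last k) := by
  induction k with
  | zero =>
    intro c D m h1 h2 h3 _
    obtain rfl : c = 1 := by omega
    exact ⟨fun _ => D, fun a b h => absurd h (by omega), by simpa using h3, by simp, by simpa using h3⟩
  | succ k ih =>
    have key : ∀ c D m : ℕ, 1 ≤ c → c * (D / c + 1) - D ≤ k + 1 → c * m ≤ D → 2 ≤ m →
        ∃ x : Fin (k + 2) → ℕ, StrictMono x ∧ m ≤ x 0 ∧ ∑ i, (1 : ℚ) / x i = c / D ∧
          m ^ 2 ^ (k + 1) ≤ x (Fin.last (k + 1)) := by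
      intro c D m h1 h2 h3 h4
      have y1 : m ≤ D / c := (Nat.le_div_iff_mul_le h1).2 (by linarith)
      have y2 : c * (D / c) ≤ D := Nat.mul_div_le _ _
      have y3 : D < c * (D / c + 1) := Nat.lt_mul_div_succ _ h1
      generalize D / c = y at *
      obtain ⟨e, he⟩ : ∃ e, c * (y + 1) = D + e := ⟨_, (Nat.add_sub_cancel' y3.le).symm⟩
      obtain ⟨x, x1, x2, x3, x4⟩ := ih e (D * (y + 1)) (y * (y + 1)) (by omega) (by omega) (by
        rw [← mul_assoc]
        exact Nat.mul_le_mul_right _ ((Nat.mul_le_mul_right _ (by nlinarith)).trans y2))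
        (by nlinarith)
      refine ⟨Fin.cons (y + 1) x, Fin.strictMono_iff_lt_succ.2 fun i => ?_, by simp; omega, ?_, ?_⟩
      · refine Fin.cases ?_ (fun j => ?_) i
        · simp only [Fin.castSucc_zero, Fin.cons_zero, Fin.cons_succ]
          nlinarith
        · simpa using x1 j.castSucc_lt_succ
      · have : (D : ℚ) ≠ 0 := by exact_mod_cast (by nlinarith : 0 < D).ne'
        have he' : (c : ℚ) * (y + 1) = D + e := by exact_mod_cast he
        rw [Fin.sum_univ_succ]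
        simp only [Fin.cons_zero, Fin.cons_succ, x3]
        push_cast
        field_simp
        linarith
      · refine le_trans ?_ (x4.trans_eq (by simp [← Fin.succ_last]))
        rw [pow_succ', pow_mul]
        exact Nat.pow_le_pow_left (by nlinarith) _
    intro c D m h1 h2 h3 h4
    by_cases h : c ∣ D
    · obtain ⟨d, rfl⟩ := h
      have : (c : ℚ) ≠ 0 := by exact_mod_cast (by omega : c ≠ 0)
      obtain ⟨x, x1, x2, x3, x4⟩ := key 1 d m le_rfl (by simp)
        (by simpa using Nat.le_of_mul_le_mul_left h3 h1) h4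
      exact ⟨x, x1, x2, by rw [x3]; push_cast; rw [div_mul_cancel_left₀ this, one_div], x4⟩
    · refine key c D m h1 ?_ h3 h4
      have := Nat.div_add_mod D c
      have := Nat.pos_of_ne_zero fun e => h (Nat.dvd_of_mod_eq_zero e)
      rw [mul_add]
      omega

lemma glue {a b c D k : ℕ} (h0 : 0 < a) (hab : a ≤ b)
    (hs : ∑ x ∈ Icc a b, (1 : ℚ) / x + c / D = 1) (m : ℕ) (hm : b < m) (h1 : 1 ≤ c)
    (h2 : c ≤ k + 1) (h3 : c * m ≤ D) : ∃ A, Rep (k + 2) A ∧ ∃ x ∈ A, m ^ 2 ^ k ≤ x := by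
  obtain ⟨x, x1, x2, x3, x4⟩ := tail k c D m h1 h2 h3 (by omega)
  have hx : ∀ i, m ≤ x i := fun i => x2.trans (x1.monotone (Fin.zero_le _))
  refine ⟨Icc a b ∪ univ.image x, ⟨?_, ?_, Fin.cons a x, Fin.cons b x,
    fun i => Fin.cases hab (fun _ => le_rfl) i, ?_⟩, _,
    mem_union_right _ (mem_image_of_mem _ (mem_univ _)), x4⟩
  · simp only [mem_union, mem_Icc, mem_image, mem_univ, true_and, not_or, not_exists]
    exact ⟨by omega, fun i => by have := hx i; omega⟩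
  · rw [sum_union, sum_image x1.injective.injOn, x3, hs]
    refine disjoint_left.2 fun y hy h => ?_
    obtain ⟨i, -, rfl⟩ := mem_image.1 h
    have := hx i
    have := (mem_Icc.1 hy).2
    omega
  · ext y
    simp [Fin.exists_fin_succ, eq_comm, ← le_antisymm_iff]

theorem result :
    (∀ r, 2 ≤ r → ∃ A, Rep r A ∧ ∃ x ∈ A, syl r ≤ x) ∧
    ∀ C : ℕ, ∃ r₀, ∀ r ≥ r₀, ∃ A, Rep r A ∧ ∃ x ∈ A, C ^ 2 ^ r ≤ x := by
  refine ⟨fun r hr => ?_, fun C => ?_⟩
  · obtain ⟨k, rfl⟩ : ∃ k, r = k + 2 := ⟨r - 2, by omega⟩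
    obtain ⟨A, hA, x, hx, h⟩ := glue (a := 3) (b := 6) (c := 1) (D := 20) (k := k) (by norm_num)
      (by norm_num) (by simp [sum_Icc_succ_top]; norm_num) 20 (by norm_num) le_rfl (by omega)
      le_rfl
    refine ⟨A, hA, x, hx, le_trans ?_ h⟩
    have : ∀ k, 1 ≤ syl (k + 2) ∧ syl (k + 2) ≤ 20 ^ 2 ^ k := fun k => by
      induction k with
      | zero => decide
      | succ k ih =>
        have h1 := Nat.pow_le_pow_left ih.2 2
        have h2 : syl (k + 2) ≤ syl (k + 2) ^ 2 := Nat.le_self_pow two_ne_zero _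
        rw [← pow_mul, ← pow_succ] at h1
        rw [syl]
        omega
    exact (this k).2
  · obtain ⟨a, ha, a2⟩ : ∃ a, C ^ 4 ≤ a ∧ 2 ≤ a := ⟨C ^ 4 + 2, by omega, by omega⟩
    have ex : ∃ b, 1 ≤ ∑ x ∈ Icc a (b + 1), (1 : ℚ) / x := by
      obtain ⟨k, hk⟩ := (Real.tendsto_sum_range_one_div_nat_succ_atTop.eventually_gt_atTop
        (a + 1 : ℝ)).exists
      refine ⟨k, ?_⟩
      have h1 : (a + 1 : ℚ) < ∑ i ∈ range k, (1 : ℚ) / (i + 1 : ℕ) := by
        rw [← Rat.cast_lt (K := ℝ)]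
        push_cast
        exact hk
      have h2 : ∑ i ∈ range k, (1 : ℚ) / (i + 1 : ℕ) = ∑ x ∈ Ico 1 (k + 1), (1 : ℚ) / x := by
        rw [sum_Ico_eq_sum_range]
        simp [add_comm]
      have h3 : Ico 1 (k + 1) ⊆ Ico 1 a ∪ Icc a (k + 1) := fun x hx => by
        simp only [mem_union, mem_Ico, mem_Icc] at hx ⊢
        omega
      have h4 := sum_le_sum_of_subset_of_nonneg (f := fun x : ℕ => (1 : ℚ) / x) h3
        fun _ _ _ => by positivity
      rw [sum_union (disjoint_left.2 fun x hx h => by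
        have := (mem_Ico.1 hx).2; have := (mem_Icc.1 h).1; omega)] at h4
      have h5 : ∑ x ∈ Ico 1 a, (1 : ℚ) / x ≤ a :=
        (sum_le_card_nsmul _ _ 1 fun x hx => by
          rw [div_le_one (by exact_mod_cast (mem_Ico.1 hx).1)]
          exact_mod_cast (mem_Ico.1 hx).1).trans (by simp)
      linarith
    have aq : (2 : ℚ) ≤ a := by exact_mod_cast a2
    have lo : ∀ b < a, ¬1 ≤ ∑ x ∈ Icc a (b + 1), (1 : ℚ) / x := fun b hb => by
      rcases Nat.lt_or_ge (b + 1) a with h | h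
      · simp [Icc_eq_empty_of_lt h]
      · obtain rfl : a = b + 1 := by omega
        rw [Icc_self, sum_singleton, not_le, div_lt_one (by linarith)]
        linarith
    have b1 := Nat.find_spec ex
    have b2 : a ≤ Nat.find ex := not_lt.1 fun h => lo _ h b1
    have b3 := not_le.1 (Nat.find_min ex (m := Nat.find ex - 1) (by omega))
    rw [Nat.sub_add_cancel (by omega)] at b3
    generalize Nat.find ex = b at *
    rw [sum_Icc_succ_top (by omega)] at b1
    obtain ⟨ρ, hρ⟩ : ∃ ρ, ρ = 1 - ∑ x ∈ Icc a b, (1 : ℚ) / x := ⟨_, rfl⟩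
    have p0 : 0 < ρ.num := Rat.num_pos.2 (by linarith)
    obtain ⟨c, hc⟩ := Int.eq_ofNat_of_zero_le p0.le
    have e : ρ = (c : ℚ) / ρ.den := by
      conv_lhs => rw [← Rat.num_div_den ρ, hc]
      simp
    refine ⟨c + 2, fun r hr => ?_⟩
    obtain ⟨k, rfl⟩ : ∃ k, r = k + 2 := ⟨r - 2, by omega⟩
    obtain ⟨A, hA, x, hx, h⟩ := glue (a := a) (b := b) (c := c) (D := ρ.den) (k := k) (by omega)
      b2 (by rw [← e, hρ]; ring) (b + 1) (by omega) (by omega) (by omega) (by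
        have h1 : (c : ℚ) / ρ.den ≤ 1 / (b + 1 : ℕ) := by linarith
        rw [div_le_div_iff₀ (by exact_mod_cast ρ.den_pos) (by positivity), one_mul] at h1
        exact_mod_cast h1)
    refine ⟨A, hA, x, hx, le_trans ?_ h⟩
    rw [pow_add, mul_comm, pow_mul]
    exact Nat.pow_le_pow_left (ha.trans (by omega)) _

end Pool.Agent.Results.MP_5e6778_nt.NotSylv
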